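import Pool.Agent.DPL.StmtsB

/-! NWT: Newton inversion (squad DPL). -/

namespace Pool.Agent.DPL.H5

open Finset Pool.Agent.DPL

theorem nwt : NWTStmt := by
  intro g s
  have h := shift_eq_sum_fwdDiff_iter (1 : ℕ) g s 0
  rw [show (0 : ℕ) + s • 1 = s by simp] at h
  rw [h]
  refine Finset.sum_congr rfl fun v _ => ?_
  rw [fwdDiff_iter_eq_sum_shift, nsmul_eq_mul]
  congr 1
  refine Finset.sum_congr rfl fun i _ => ?_
  simp [zsmul_eq_mul]

end Pool.Agent.DPL.H5
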