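import Pool.Agent.DPL.StmtsB

/-! STV: values for the star (squad DPL). -/

namespace Pool.Agent.DPL.H5

open Finset Pool.Agent.DPL Pool.Agent.DPS

theorem stv_one (hc : CNTStmt) (n k : ℕ) (T R : Finset (Fin n)) (hT : T.card ≤ k) (hk : k ≤ n)
    (hR : R.card ≤ n - k) (L : ℕ → ℝ) :
    wf L (star k T) R = ∑ u ∈ range ((R \ T).card + 1),
      (pc (n - T.card) (k - T.card) (R \ T).card u : ℝ) * L u := by
  have h1 : wf L (star k T) R =
      ∑ F ∈ univ.filter (fun F : KS n k => T ⊆ F.1), L (R \ F.1).card := by
    unfold wf DPS.star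
    rw [Finset.sum_filter]
    refine Finset.sum_congr rfl fun F _ => ?_
    split_ifs <;> simp
  have hmaps : ∀ F ∈ univ.filter (fun F : KS n k => T ⊆ F.1),
      (R \ F.1).card ∈ range ((R \ T).card + 1) := by
    intro F hF
    rw [Finset.mem_filter] at hF
    rw [Finset.mem_range]
    have := Finset.card_le_card (Finset.sdiff_subset_sdiff (Finset.Subset.refl R) hF.2)
    omega
  rw [h1, ← Finset.sum_fiberwise_of_maps_to hmaps]
  refine Finset.sum_congr rfl fun u hu => ?_
  have h2 : ∀ F ∈ (univ.filter (fun F : KS n k => T ⊆ F.1)).filter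
      (fun F => (R \ F.1).card = u), L (R \ F.1).card = L u := by
    intro F hF
    rw [Finset.mem_filter] at hF
    rw [hF.2]
  rw [Finset.sum_congr rfl h2, Finset.sum_const, nsmul_eq_mul, Finset.filter_filter]
  have h3 : u ≤ n - k := by
    rw [Finset.mem_range] at hu
    have := Finset.card_le_card (Finset.sdiff_subset : R \ T ⊆ R)
    omega
  rw [hc n k T R u hT hk h3]

theorem stv (hc : CNTStmt) : STVStmt := by
  intro n k T R hT hk hR
  have key := stv_one hc n k T
  refine ⟨key R hT hk hR, ?_, ?_⟩
  · have h1 : dg (star k T) R = wf (fun u => if u = 0 then 1 else 0) (star k T) R := by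
      unfold dg wf
      refine Finset.sum_congr rfl fun F _ => ?_
      by_cases h : R ⊆ F.1
      · have : (R \ F.1).card = 0 := by
          rw [Finset.card_eq_zero, Finset.sdiff_eq_empty_iff_subset]; exact h
        simp [h, this]
      · have : (R \ F.1).card ≠ 0 := by
          rw [Ne, Finset.card_eq_zero, Finset.sdiff_eq_empty_iff_subset]; exact h
        simp only [if_neg h, if_neg this, zero_mul]
    rw [h1, key R hT hk hR]
    have h2 : ∑ u ∈ range ((R \ T).card + 1),
        (pc (n - T.card) (k - T.card) (R \ T).card u : ℝ) * (if u = 0 then (1 : ℝ) else 0) =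
        (pc (n - T.card) (k - T.card) (R \ T).card 0 : ℝ) := by
      rw [Finset.sum_eq_single 0]
      · simp
      · intro b _ hb
        simp [hb]
      · intro h
        exact absurd (Finset.mem_range.mpr (Nat.succ_pos _)) h
    rw [h2]
    have h3 : ((n - T.card).choose (k - T.card) : ℝ) ≠ 0 := by
      have : 0 < (n - T.card).choose (k - T.card) := Nat.choose_pos (by omega)
      positivity
    unfold dl pc
    rw [mul_div_cancel₀ _ h3]
    simp
  · have h1 : ip (star k T) (star k T) = wf (fun _ => 1) (star k T) ∅ := by
      unfold ip wf DPS.star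
      refine Finset.sum_congr rfl fun F _ => ?_
      split_ifs <;> simp
    rw [h1, key ∅ hT hk (by simp)]
    unfold pc
    simp only [Finset.empty_sdiff, Finset.card_empty]
    rw [Finset.sum_range_one]
    have : (n - T.card).choose (n - T.card - (k - T.card)) = (n - T.card).choose (k - T.card) :=
      Nat.choose_symm (by omega)
    simp [this]

end Pool.Agent.DPL.H5
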